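import Mathlib
import Pool.Agent.H5.ThinCode

namespace Pool.Agent.Results.MP_d2d48a_co.NoThinSet

theorem result : ∀ α : ℝ, 0 < α → ∀ d : ℕ, 1 ≤ d →
    ∃ (n : ℕ) (C : Submodule (ZMod 2) (Fin n → ZMod 2)) (H : Fin d → Finset (Fin n)),
      1 ≤ n ∧ (∀ i j, i ≠ j → Disjoint (H i) (H j)) ∧
      (∀ i, ∀ c ∈ C, c ≠ 0 → ∃ k ∈ H i, c k ≠ 0) ∧
      ¬ ∃ S : Finset (Fin n), ∀ c ∈ C, c ≠ 0 →
        α * (hammingNorm c : ℝ) ≤ ((S.filter fun k => c k ≠ 0).card : ℝ) ∧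
        (S.filter fun k => c k ≠ 0).card < hammingNorm c :=
  fun α hα d hd => Pool.Agent.H5.ThinCode.main α hα d hd

end Pool.Agent.Results.MP_d2d48a_co.NoThinSet
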